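import Pool.Agent.Helper43.UN.GoalsF

/-! Packet GNb (project UN): transversality of a general translate and dilation. -/

set_option autoImplicit false

namespace Pool.Agent.Helper42.UN

open Finset Polynomial
open Pool.Agent.Lead.Sh
open Pool.Agent.Helper18.EW (GoalWr)
open Pool.Agent.Helper43.UN

theorem h42_comp {e w i : ℕ} {g : ℕ → ℂ[X]} (t ε : ℂ)
    (hg : ∀ i, e < i + w → i ≤ e → ∀ j, e < j + w → (g i).coeff j = if j = i then 1 else 0)
    (hε : ε ≠ 0) (hi : e < i + w) (hie : i ≤ e) :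
    (g i).comp (C ε⁻¹ * (X - C t)) =
      ∑ j : Fin (e + 1), (ε⁻¹ ^ i * ((g i).coeff j * ε ^ (i - (j : ℕ)))) •
        (X - C t) ^ (j : ℕ) := by
  have hdeg : (g i).natDegree < e + 1 := by
    rw [Nat.lt_succ_iff, natDegree_le_iff_coeff_eq_zero]
    intro N hN
    rw [hg i hi hie N (by omega), if_neg (by omega)]
  conv_lhs => rw [(g i).as_sum_range' (e + 1) hdeg]
  rw [← Fin.sum_univ_eq_sum_range (fun j => monomial j ((g i).coeff j)) (e + 1)]
  rw [Polynomial.sum_comp]
  refine sum_congr rfl fun j _ => ?_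
  rw [monomial_comp, mul_pow, ← C_pow, smul_eq_C_mul, ← mul_assoc, ← C_mul]
  congr 2
  by_cases hj : (j : ℕ) ≤ i
  · have h1 : ε⁻¹ ^ i = ε⁻¹ ^ (i - (j : ℕ)) * ε⁻¹ ^ (j : ℕ) := by
      rw [← pow_add]; congr 1; omega
    have h2 : ε⁻¹ ^ (i - (j : ℕ)) * ε ^ (i - (j : ℕ)) = 1 := by
      rw [← mul_pow, inv_mul_cancel₀ hε, one_pow]
    rw [h1]
    calc (g i).coeff j * ε⁻¹ ^ (j : ℕ)
        = (ε⁻¹ ^ (i - (j : ℕ)) * ε ^ (i - (j : ℕ))) * ((g i).coeff j * ε⁻¹ ^ (j : ℕ)) := by
          rw [h2, one_mul]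
      _ = _ := by ring
  · have hj2 := j.2
    rw [hg i hi hie j (by omega), if_neg (by omega)]
    ring

theorem goalGNb : GoalGNb := by
  intro hWr e w V g hfin hrank hg
  classical
  obtain ⟨t, ht⟩ := hWr (e + 1 - w) V hfin (by omega)
  set I := (range (e + 1)).filter (fun i => e < i + w) with hI
  have hmem : ∀ i, i ∈ I ↔ e < i + w ∧ i ≤ e := by
    intro i
    rw [hI, mem_filter, mem_range]
    constructor
    · rintro ⟨h1, h2⟩; exact ⟨h2, by omega⟩
    · rintro ⟨h1, h2⟩; exact ⟨by omega, h1⟩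
  set q : Fin (e + 1) → ℂ[X] := fun j => (X - C t) ^ (j : ℕ) with hq
  set N : (Fin (e + 1) → ℂ) →ₗ[ℂ] ℂ[X] := Fintype.linearCombination ℂ q with hN
  have hNa : ∀ x, N x = ∑ j, x j • (X - C t) ^ (j : ℕ) := by
    intro x
    rw [hN, Fintype.linearCombination_apply]
  set L : (Fin (e + 1) → ℂ) →ₗ[ℂ] (ℂ[X] ⧸ V) := V.mkQ ∘ₗ N with hL
  set b := Module.finBasis ℂ (LinearMap.range L) with hb
  set Ψ : Fin (Module.finrank ℂ (LinearMap.range L)) → (Fin (e + 1) → ℂ) →ₗ[ℂ] ℂ :=
    fun i => b.coord i ∘ₗ L.rangeRestrict with hΨ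
  have h1 : ∀ x, (∀ i, Ψ i x = 0) ↔ N x ∈ V := by
    intro x
    have h2 : (∀ i, Ψ i x = 0) ↔ L.rangeRestrict x = 0 := by
      constructor
      · intro h
        apply b.ext_elem
        intro i
        have := h i
        rw [hΨ] at this
        simpa using this
      · intro h i
        rw [hΨ]
        simp only [LinearMap.comp_apply]
        rw [h, map_zero]
    rw [h2]
    have h3 : L.rangeRestrict x = 0 ↔ L x = 0 := by
      rw [← LinearMap.mem_ker, LinearMap.ker_rangeRestrict, LinearMap.mem_ker]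
    rw [h3, hL, LinearMap.comp_apply, Submodule.mkQ_apply, Submodule.Quotient.mk_eq_zero]
  set u : ℕ → ℂ → Fin (e + 1) → ℂ := fun i ε j => (g i).coeff j * ε ^ (i - (j : ℕ)) with hu
  set M : Fin (Module.finrank ℂ (LinearMap.range L)) → ↥I → ℂ[X] := fun i k =>
    ∑ j : Fin (e + 1), C (Ψ i (Pi.single j 1)) * (C ((g k).coeff j) * X ^ ((k : ℕ) - (j : ℕ)))
    with hM
  have h2 : ∀ i k ε, (M i k).eval ε = Ψ i (u k ε) := by
    intro i k ε
    rw [hM]
    simp only [eval_finsetSum, eval_mul, eval_C, eval_pow, eval_X]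
    rw [LinearMap.pi_apply_eq_sum_univ (Ψ i) (u k ε)]
    refine sum_congr rfl fun j _ => ?_
    rw [smul_eq_mul, mul_comm]
    have : (fun j' => if j = j' then (1 : ℂ) else 0) = Pi.single j 1 := by
      funext j'
      by_cases hjj : j = j'
      · subst hjj; simp
      · rw [if_neg hjj, Pi.single_eq_of_ne (Ne.symm hjj)]
    rw [this]
  have h3 : ∀ (c : ↥I → ℂ) (ε : ℂ), (∀ i, ∑ k, c k * (M i k).eval ε = 0) ↔
      N (∑ k, c k • u k ε) ∈ V := by
    intro c ε
    rw [← h1]
    refine forall_congr' fun i => ?_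
    rw [map_sum]
    have : ∑ k : ↥I, c k * (M i k).eval ε = ∑ k : ↥I, Ψ i (c k • u k ε) := by
      refine sum_congr rfl fun k _ => ?_
      rw [h2, map_smul, smul_eq_mul]
    rw [this]
  obtain ⟨ε, hε, hinj⟩ := poly_inj M (by
    intro c hc
    rw [h3] at hc
    have h4 : ∀ k : ↥I, u k 0 = Pi.single ⟨(k : ℕ), by have := (hmem k).1 k.2; omega⟩ 1 := by
      intro k
      have hk := (hmem k).1 k.2
      funext j
      have hj := j.2
      rw [hu]
      by_cases hjk : (j : ℕ) = k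
      · have : j = ⟨(k : ℕ), by omega⟩ := Fin.ext hjk
        rw [this, Pi.single_eq_same]
        simp only []
        rw [hg k hk.1 hk.2 k hk.1, if_pos rfl, Nat.sub_self, pow_zero, mul_one]
      · rw [Pi.single_eq_of_ne (fun h => hjk (by rw [h]))]
        by_cases hje : e < (j : ℕ) + w
        · simp only []
          rw [hg k hk.1 hk.2 j hje, if_neg hjk, zero_mul]
        · simp only []
          rw [zero_pow (by omega), mul_zero]
    have h5 : N (∑ k, c k • u k 0) = ∑ k : ↥I, c k • (X - C t) ^ (k : ℕ) := by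
      rw [map_sum]
      refine sum_congr rfl fun k _ => ?_
      rw [map_smul, h4, hN, Fintype.linearCombination_apply_single, one_smul]
    rw [h5] at hc
    have h6 : ∑ k : ↥I, c k • (X - C t) ^ (k : ℕ) = 0 := by
      apply ht _ hc
      apply dvd_sum
      intro k _
      have hk := (hmem k).1 k.2
      rw [smul_eq_C_mul]
      exact Dvd.dvd.mul_left (pow_dvd_pow _ (by omega)) _
    have h7 : ∑ k : ↥I, c k • (X : ℂ[X]) ^ (k : ℕ) = 0 := by
      have h8 := congrArg (fun p : ℂ[X] => p.comp (X + C t)) h6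
      simp only [Polynomial.sum_comp, zero_comp, smul_comp, pow_comp, sub_comp, X_comp, C_comp,
        add_sub_cancel_right] at h8
      exact h8
    funext k
    have h8 := congrArg (fun p : ℂ[X] => p.coeff (k : ℕ)) h7
    simp only [finsetSum_coeff, coeff_smul, coeff_X_pow, coeff_zero, smul_eq_mul, mul_ite,
      mul_one, mul_zero] at h8
    rw [sum_eq_single k] at h8
    · rw [if_pos rfl] at h8
      exact h8
    · intro k' _ hk'
      rw [if_neg (fun h => hk' (Subtype.ext h.symm))]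
    · intro h; exact absurd (mem_univ k) h)
  refine ⟨t, ε, hε, ?_⟩
  intro a ha i hi hie
  have h4 := hinj (fun k => a k * ε⁻¹ ^ (k : ℕ)) (by
    rw [h3]
    have h5 : N (∑ k : ↥I, (a k * ε⁻¹ ^ (k : ℕ)) • u k ε) =
        ∑ i ∈ I, C (a i) * (g i).comp (C ε⁻¹ * (X - C t)) := by
      rw [map_sum, ← sum_coe_sort I]
      refine sum_congr rfl fun k _ => ?_
      have hk := (hmem k).1 k.2
      rw [h42_comp t ε hg hε hk.1 hk.2, map_smul, hNa, mul_smul, ← smul_eq_C_mul,
        smul_sum (r := ε⁻¹ ^ (k : ℕ))]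
      congr 1
      refine sum_congr rfl fun j _ => ?_
      rw [smul_smul]
    rw [h5]
    exact ha)
  have h6 := congrFun h4 ⟨i, (hmem i).2 ⟨hi, hie⟩⟩
  simp only [Pi.zero_apply] at h6
  exact (mul_eq_zero.1 h6).resolve_right (pow_ne_zero _ (inv_ne_zero hε))

end Pool.Agent.Helper42.UN
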