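import Pool.Agent.Helper43.UN.GoalsH
import Pool.Agent.Helper50.SG.T4

/-! Packet MNk (project UN): pencils. -/

set_option autoImplicit false

namespace Pool.Agent.Helper42.UN

open Finset Pool.Agent.Lead.Sh
open Pool.Agent.Helper43.Ah (rowsD mem_rowsD)
open Pool.Agent.Helper18.UW (lg)
open Pool.Agent.Helper18.SG (GoalT1 blk)
open Pool.Agent.Helper43.UN
open Helper18.Cusp (Red rr YB kap GoodFor Concl rr_zero rr_antitone rr_strict rr_le_kap)
open Helper18.Slab (Uk)
open Helper18.Flag (DR rk)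
open Helper18.Tw (rk_eq mem_DR' slab_finish)

theorem h42_ar {H h k V m8 τ : ℕ} (hh : 1 ≤ h) (hH : h < H) (hk : k = (H - 1) / h + 1)
    (hV1 : 2 ^ 40 * H ^ 2 ≤ V) (hV2 : V ≤ h * (τ + 1)) (hτ : τ ≤ m8 + h) :
    2 ≤ k ∧ H ≤ k * h ∧ k * h < 2 * H ∧ k * (k * h) + 2 * k ≤ m8 ∧ 2 ^ 39 * H ≤ τ / k + 1 := by
  have a1 : 1 ≤ (H - 1) / h := (Nat.one_le_div_iff (by omega)).2 (by omega)
  have a2 := Nat.div_mul_le_self (H - 1) h
  have a3 := Nat.lt_div_mul_add (a := H - 1) (b := h) (by omega)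
  have hk2 : 2 ≤ k := by omega
  have e1 : k * h = (H - 1) / h * h + h := by rw [hk]; ring
  have hkh : k * h < 2 * H := by omega
  have hkH : H ≤ k * h := by omega
  refine ⟨hk2, hkH, hkh, ?_, ?_⟩
  · have b1 : h * (τ + 1) ≤ h * m8 + h * (h + 1) := by
      rw [← mul_add]
      exact Nat.mul_le_mul_left _ (by omega)
    have b2 : h * (h + 1) ≤ H ^ 2 := by
      rw [sq]
      exact Nat.mul_le_mul (by omega) (by omega)
    have b3 : (k * (k * h) + 2 * k) * h ≤ m8 * h := by
      have c1 : (k * (k * h) + 2 * k) * h = (k * h) * (k * h) + 2 * (k * h) := by ring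
      have c2 : (k * h) * (k * h) ≤ (2 * H) * (2 * H) := Nat.mul_le_mul hkh.le hkh.le
      have c3 : (2 * H) * (2 * H) = 4 * H ^ 2 := by ring
      have c4 : H ≤ H ^ 2 := Nat.le_self_pow (by norm_num) H
      have c5 : h * m8 = m8 * h := mul_comm _ _
      rw [c1]
      generalize H ^ 2 = Q at *
      generalize (k * h) * (k * h) = U at *
      generalize k * h = W at *
      generalize m8 * h = Z at *
      omega
    exact Nat.le_of_mul_le_mul_right b3 (by omega)
  · have b1 : τ < τ / k * k + k := Nat.lt_div_mul_add (by omega)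
    have b2 : τ + 1 ≤ (τ / k + 1) * k := by
      have : (τ / k + 1) * k = τ / k * k + k := by ring
      omega
    have b3 : 2 ^ 40 * H ^ 2 ≤ (τ / k + 1) * (2 * H) := by
      calc 2 ^ 40 * H ^ 2 ≤ h * (τ + 1) := hV1.trans hV2
        _ ≤ h * ((τ / k + 1) * k) := Nat.mul_le_mul_left _ b2
        _ = (τ / k + 1) * (k * h) := by ring
        _ ≤ (τ / k + 1) * (2 * H) := Nat.mul_le_mul_left _ hkh.le
    have b4 : (2 ^ 39 * H) * (2 * H) ≤ (τ / k + 1) * (2 * H) := by
      calc (2 ^ 39 * H) * (2 * H) = 2 ^ 40 * H ^ 2 := by ring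
        _ ≤ _ := b3
    exact Nat.le_of_mul_le_mul_right b4 (by omega)

theorem h42_sup {d : ℕ} {m : ℕ → ℕ} (hR : Red d m) (i : ℕ) :
    rr d m (m 8 + i) = 0 ∨ rr d m (m 8 + i) + i ≤ kap d m ∨
      (d = 3 * (m 8 + i) ∧ rr d m (m 8 + i) + i ≤ kap d m + 1) := by
  induction i with
  | zero =>
    right; left
    rw [add_zero, add_zero]
    exact rr_le_kap hR _
  | succ i ih =>
    rcases Nat.eq_zero_or_pos (rr d m (m 8 + (i + 1))) with h0 | h0
    · exact Or.inl h0
    right
    have e0 : m 8 + (i + 1) = m 8 + i + 1 := by omega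
    rw [e0] at h0 ⊢
    have h1 : 3 * (m 8 + i + 1) ≤ d := by
      by_contra hcon
      rw [rr_zero (by omega)] at h0
      exact lt_irrefl _ h0
    have h2 := rr_antitone hR (show m 8 + i ≤ m 8 + i + 1 by omega)
    rcases rr_strict hR (show m 8 ≤ m 8 + i by omega) h0 with h3 | ⟨h3, h4, h5⟩
    · left
      rcases ih with ih | ih | ih <;> omega
    · right
      refine ⟨h3, ?_⟩
      rcases ih with ih | ih | ih <;> omega

theorem goalMNk : GoalMNk := by
  intro hRed hSh hT1 s m d hm hs hd h9 hlt hh htot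
  have hR : Red d m := ⟨fun i j hij _ => hm hij, hd, hlt⟩
  obtain ⟨τ, -, hτ2⟩ := Pool.Agent.Helper50.SG.exists_tau hT1 (d := d) (a0 := m 0) (c := 0)
    (by omega)
  have hτ := hτ2 m hR rfl
  obtain ⟨H, hHd⟩ : ∃ H, H = 2 ^ 410 * lg (m 9) ^ 3 * m 9 := ⟨_, rfl⟩
  obtain ⟨h, hhd⟩ : ∃ h, h = kap d m := ⟨_, rfl⟩
  have hkap : kap d m = 3 * d - ∑ i ∈ range 9, m i := rfl
  rw [← hHd] at hh
  have hh1 : 1 ≤ h := by omega
  have hhH : h < H := by omega
  have hV := Pool.Agent.Helper50.SG.tot_of hR (m := m) (fun i _ => rfl) htot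
  have hV1 : 2 ^ 40 * H ^ 2 ≤ ∑ b ∈ range (d + 1), rr d m b := by
    refine le_trans (le_of_eq ?_) hV
    have e0 : (2 : ℕ) ^ 860 = 2 ^ 40 * (2 ^ 410) ^ 2 := by rw [← pow_mul, ← pow_add]
    rw [hHd, e0]
    generalize (2 : ℕ) ^ 410 = A
    ring
  have hV2 : ∑ b ∈ range (d + 1), rr d m b ≤ h * (τ + 1) := by
    have e1 : ∑ b ∈ range (d + 1), rr d m b =
        ∑ b ∈ (range (d + 1)).filter (fun b => b ≤ τ), rr d m b := by
      rw [sum_filter]
      refine sum_congr rfl fun b _ => ?_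
      by_cases hb : b ≤ τ
      · rw [if_pos hb]
      · rw [if_neg hb]
        have := (hτ b).not
        omega
    have e2 : ((range (d + 1)).filter (fun b => b ≤ τ)).card ≤ τ + 1 := by
      have : (range (d + 1)).filter (fun b => b ≤ τ) ⊆ range (τ + 1) := by
        intro b hb
        rw [mem_filter] at hb
        rw [mem_range]
        omega
      have := card_le_card this
      rwa [card_range] at this
    rw [e1]
    refine (sum_le_card_nsmul _ _ h (fun b _ => ?_)).trans ?_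
    · rw [hhd]; exact rr_le_kap hR b
    · rw [smul_eq_mul, mul_comm]
      exact Nat.mul_le_mul_left _ e2
  have hτ8 : τ ≤ m 8 + h := by
    by_contra hcon
    have h1 := h42_sup hR (τ - m 8)
    rw [show m 8 + (τ - m 8) = τ by omega] at h1
    have h2 := (hτ τ).2 le_rfl
    omega
  obtain ⟨k, hkd⟩ : ∃ k, k = (H - 1) / h + 1 := ⟨_, rfl⟩
  obtain ⟨k2, k3, k4, k5, k6⟩ := h42_ar hh1 hhH hkd hV1 hV2 hτ8
  have hH400 : 2 ^ 400 * lg (m 9) ^ 3 * m 9 ≤ H := by
    rw [hHd, mul_assoc, mul_assoc]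
    exact Nat.mul_le_mul_right _ (Nat.pow_le_pow_right (by norm_num) (by norm_num))
  rw [hhd] at k3 k4 k5
  have hSh' : Sh (m 9) (m 9) (τ / k + 1) (k * kap d m) 0 (blk (rr d m) k) := by
    refine hSh hT1 d (m 9) k τ m hR h9 k2 hτ k5 (hH400.trans k3) (hH400.trans ?_) ?_
    · omega
    · generalize k * kap d m = W at *
      omega
  have hG := hRed ∅ (Ico 9 s) m (m 9) (m 9) (τ / k + 1) (k * kap d m) 0 (blk (rr d m) k) hSh'
    (disjoint_empty_left _) (fun i hi => absurd hi (notMem_empty i))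
    (fun i hi => hm (mem_Ico.1 hi).1) (by rw [sum_empty, mul_zero]; exact Nat.zero_le _)
  rw [empty_union] at hG
  obtain ⟨z, F, hPD, -⟩ := Pool.Agent.Helper43.Nod.hex k (by omega)
  have hP := hPD.pencil k2
  apply slab_finish hm hs (by omega) hP hR
  have hD : DR (Uk k z d m) (d + 1) = rowsD (τ / k + 1) (blk (rr d m) k) := by
    ext x
    rw [mem_DR' hP (by omega) hR, rk_eq hP (by omega) hR, mem_rowsD]
    constructor
    · intro hx
      refine ⟨?_, hx⟩
      by_contra hcon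
      have h4 : ∑ i ∈ range k, rr d m (k * x.2 + i) = 0 := by
        apply sum_eq_zero
        intro i _
        have h5 := (hτ (k * x.2 + i)).not
        have h6 : τ < k * x.2 := by
          have h7 := Nat.lt_div_mul_add (a := τ) (b := k) (by omega)
          have h8 : k * (τ / k + 1) ≤ k * x.2 := Nat.mul_le_mul_left _ (by omega)
          rw [mul_add, mul_one, mul_comm k (τ / k)] at h8
          omega
        omega
      omega
    · intro hx
      exact hx.2
  rw [hD]
  exact hG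

end Pool.Agent.Helper42.UN
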