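import Pool.Agent.Helper43.UN.GoalsZ

/-! Packet Z10bn (project UN): the moving point in the zone. -/

set_option autoImplicit false

namespace Pool.Agent.Helper42.UN

open Finset
open Pool.Agent.Helper18.EW (Gr Ex kk Pau gV)
open Pool.Agent.Helper18.UW (Par4)
open Pool.Agent.Helper43.UN
open Pool.Agent.Helper43.Hw (T na va lz Play aa ac sc oo sk U Dd Sd Pn nx bb np GoalH1 GoalH4)

theorem kap_mono {μ R N : ℕ} {κ x : ℕ → ℕ} (hP : Play μ R N κ x) {a b : ℕ} (hab : a ≤ b)
    (hb : b < R) : κ a ≤ κ b := by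
  induction b, hab using Nat.le_induction with
  | base => exact le_rfl
  | succ b _ ih => exact (ih (by omega)).trans (hP.mono b hb)

theorem par_mu {μ R K b l Lg q : ℕ} (h : Par4 μ R K b l Lg q) : 1 ≤ μ ∧ μ + 2 ≤ R ∧ 1 ≤ b := by
  have h1 := h.l1
  have h2 := h.R1
  have h3 := h.L1
  have h4 := h.b1
  have h5 := h.b2
  have hb : 1 ≤ b := by
    calc 1 ≤ 2 ^ 42 * 1 := by norm_num
      _ ≤ 2 ^ 42 * Lg := Nat.mul_le_mul_left _ h3
      _ ≤ b := h4
  have hμ : 1 ≤ μ := by
    refine le_trans ?_ h5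
    have : 0 < 2 ^ 33 * b * (q + 1) ^ 2 * l := by positivity
    exact this
  exact ⟨hμ, by omega, hb⟩

/-- The growth of the moving point. -/
theorem growth (h4 : GoalH4) {μ R N K b l Lg q βp βm s : ℕ} {W : ℤ} {L o k D S n κ x : ℕ → ℕ} {y : ℕ}
    (h : Zon μ R N K b l Lg q βp βm s W L o k D S n κ x y) {t0 : ℕ}
    (h0 : s ≤ t0) (h0y : t0 ≤ y) (hκ : ∀ t, t0 ≤ t → t ≤ y → κ t = κ y) :
    ∀ t, t0 ≤ t → t ≤ y →
      (t - t0) * (b * l + (R - 1 - y)) + 2 ^ 14 * l * na μ R t ≤ 2 ^ 14 * l * x t := by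
  obtain ⟨hμ, hR, -⟩ := par_mu h.par
  have hyR := h.y2
  have hyN := h.ex.2.1
  have hJs := h.ext.Js
  intro t ht
  induction t, ht using Nat.le_induction with
  | base =>
    intro _
    have h5 := h.play.nat t0 (by omega) (by rw [hκ t0 le_rfl h0y]; exact hyN)
    rw [Nat.sub_self, zero_mul, zero_add]
    exact Nat.mul_le_mul_left _ h5
  | succ t ht ih =>
    intro hty
    have ih' := ih (by omega)
    have e1 : κ t = κ y := hκ t ht (by omega)
    have e2 : κ (t + 1) = κ y := hκ (t + 1) (by omega) hty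
    have h5 := (h4 μ R N κ x hμ (by omega) h.play t (by omega)).1 (by rw [e1]; exact hyN)
      (by rw [e2]; exact hyN)
    have hinc := h.ext.inc t (by omega) (by omega)
    rw [e1, e2, h.ex.2.2 t (by omega), h.ex.2.2 (t + 1) hty, Nat.sub_self, zero_mul, add_zero]
      at h5
    have h6 := h.ih t (by omega) (by omega)
    rw [e1] at h6
    have hna : na μ R (t + 1) = na μ R t + 1 := by
      unfold na; omega
    rw [hna] at h5 ⊢
    obtain ⟨f, hf⟩ : ∃ f, N = κ y + 1 + f := ⟨N - (κ y + 1), by omega⟩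
    have hf1 : N - 1 - κ y = f := by omega
    have hf2 : N - κ y = f + 1 := by omega
    rw [hf1] at h5
    rw [hf2] at h6
    have h7 : x (t + 1) + (f + βm) = x t + βp + o t + k t + oo μ R κ x t + sk μ κ x t := by
      have h8 : f * (na μ R t + 1) = f * na μ R t + f := by ring
      rw [h8] at h5
      omega
    set w := R - 1 - y with hw
    have h9 : w ≤ R - 1 - t := by omega
    have h10 : (t + 1 - t0) * (b * l + w) = (t - t0) * (b * l + w) + (b * l + w) := by
      have : t + 1 - t0 = (t - t0) + 1 := by omega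
      rw [this]; ring
    have h11 : 2 ^ 14 * l * (x (t + 1) + (f + βm)) =
        2 ^ 14 * l * (x t + βp + o t + k t + oo μ R κ x t + sk μ κ x t) := by
      rw [h7]
    have h12 : 2 ^ 14 * l * (x (t + 1) + (f + βm)) =
        2 ^ 14 * l * x (t + 1) + 2 ^ 14 * l * (f + βm) := by ring
    have h13 : 2 ^ 14 * l * (x t + βp + o t + k t + oo μ R κ x t + sk μ κ x t) =
        2 ^ 14 * l * x t + 2 ^ 14 * l * (βp + o t + oo μ R κ x t) +
          2 ^ 14 * l * (k t + sk μ κ x t) := by ring
    have h14 : 2 ^ 14 * l * (na μ R t + 1) = 2 ^ 14 * l * na μ R t + 2 ^ 14 * l := by ring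
    have h15 : 2 ^ 14 * l * (f + 1 + βm) = 2 ^ 14 * l * (f + βm) + 2 ^ 14 * l := by ring
    rw [h10, h14]
    rw [h12, h13] at h11
    rw [h15] at h6
    generalize 2 ^ 14 * l * x (t + 1) = A at *
    generalize 2 ^ 14 * l * x t = B at *
    generalize 2 ^ 14 * l * (f + βm) = C at *
    generalize 2 ^ 14 * l * (βp + o t + oo μ R κ x t) = E at *
    generalize 2 ^ 14 * l * (k t + sk μ κ x t) = F at *
    generalize 2 ^ 14 * l * na μ R t = G at *
    generalize (t - t0) * (b * l + w) = H at *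
    generalize b * l = I at *
    omega

theorem goalZ10bn (h1 : GoalH1) (h4 : GoalH4) : GoalZ10bn := by
  intro μ R N K b l Lg q βp βm s W L o k D S n κ x y h
  obtain ⟨hμ, hR, -⟩ := par_mu h.par
  have hyR := h.y2
  have hyN := h.ex.2.1
  have hJs := h.ext.Js
  have hsy := h.sy
  have hP := h.play
  obtain ⟨g1, g2, g3, g4, g5, g6, g7⟩ := h1 μ R N κ x hμ hR hP
  have hx := hP.lt y (by omega)
  have hac : R - 1 - μ < ac R κ x (κ y) := by
    have hJ := h.pau (R - 1 - μ) (by omega) (by omega)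
    have hx0 : x (R - 1 - μ) = 0 := by
      rw [hJ.2]; unfold na; omega
    refine ((g1 (κ y) (R - 1 - μ) (by omega)).2).1 ?_
    unfold aa
    rw [hx0, if_neg (lt_irrefl 0), add_zero]
    exact kap_mono hP (by omega) (by omega)
  refine ⟨hac, ?_, ?_⟩
  · set F := (range y).filter (fun z => κ z = κ y ∧ na μ R z < x z) with hF
    have hkk : kk μ R κ x y = F.card := rfl
    rw [hkk]
    have hmem : ∀ z ∈ F, s ≤ z ∧ z < y ∧ κ z = κ y := by
      intro z hz
      rw [hF, mem_filter, mem_range] at hz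
      obtain ⟨hzy, hzκ, hzx⟩ := hz
      refine ⟨?_, hzy, hzκ⟩
      by_contra hcon
      rcases Nat.lt_or_ge z (R - 1 - μ) with hzJ | hzJ
      · have := (g2 (κ y) z (by omega)).1 ⟨hzκ, by omega⟩
        omega
      · have := (h.pau z (by omega) (by omega)).2
        omega
    rcases F.eq_empty_or_nonempty with hE | hE
    · rw [hE, card_empty, zero_mul]
      exact Nat.zero_le _
    · have h5 := hmem _ (F.min'_mem hE)
      set t0 := F.min' hE with ht0
      have hsub : F ⊆ Ico t0 y := by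
        intro z hz
        rw [mem_Ico]
        exact ⟨F.min'_le z hz, (hmem z hz).2.1⟩
      have hcard : F.card ≤ y - t0 := by
        have := card_le_card hsub
        rwa [Nat.card_Ico] at this
      have h7 := growth h4 h (t0 := t0) h5.1 h5.2.1.le
        (fun t ht hty => le_antisymm (kap_mono hP hty (by omega))
          (h5.2.2 ▸ kap_mono hP ht (by omega))) y h5.2.1.le le_rfl
      have h8 : 2 ^ 14 * l * (x y - na μ R y) = 2 ^ 14 * l * x y - 2 ^ 14 * l * na μ R y := by
        rw [Nat.mul_sub]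
      have h9 := Nat.mul_le_mul_right (b * l + (R - 1 - y)) hcard
      rw [h8]
      generalize 2 ^ 14 * l * x y = A at *
      generalize 2 ^ 14 * l * na μ R y = B at *
      generalize (y - t0) * (b * l + (R - 1 - y)) = C at *
      omega
  · unfold na
    omega

end Pool.Agent.Helper42.UN
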